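import Pool.Agent.H36L.Area
import Pool.Agent.H36L.Zero

/-!
# Hemisphere discrepancy of the Lubotzky-Phillips-Sarnak rotations at symmetric positions

Notation (from `Pool.Agent.H36L`): `E3` is Euclidean three-space, `R i` the rotation through the
angle with cosine `-3/5` about the `i`-th coordinate axis, `ball k` the set of all products of at
most `k` factors from `R i`, `(R i)⁻¹`, `cap u t = {y ∈ S² : t ≤ ⟨y, u⟩}`, and `area` the surface
area on the unit sphere.
-/

set_option autoImplicit false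

open Matrix
open scoped Real

namespace Pool.Agent.Results.MP_a91a8d_an.Hemisphere

open Pool.Agent.H36L

/-- The number of elements of the ball of radius `k`. -/
noncomputable def N (k : ℕ) : ℕ := (ball k).ncard

/-- The discrepancy `D_k(x, A)` of the cap `A = {y : t ≤ ⟨y, u⟩}`. -/
noncomputable def D (k : ℕ) (x u : E3) (t : ℝ) : ℝ :=
  |(({g | g ∈ ball k ∧ t ≤ inner ℝ (Matrix.toEuclideanLin g x) u}).ncard : ℝ) / N k -
    area (cap u t) / (4 * π)|

lemma inner_axis (g : Matrix (Fin 3) (Fin 3) ℝ) (x : E3) (i : Fin 3) :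
    inner ℝ (Matrix.toEuclideanLin g x) (EuclideanSpace.single i (1 : ℝ)) =
      (g *ᵥ (x : Fin 3 → ℝ)) i := by
  rw [EuclideanSpace.inner_single_right]
  simp [Matrix.toEuclideanLin, Matrix.toLpLin_apply]

lemma inner_axis' (g : Matrix (Fin 3) (Fin 3) ℝ) (u : E3) (i : Fin 3) :
    inner ℝ (Matrix.toEuclideanLin g (EuclideanSpace.single i (1 : ℝ))) u =
      (gᵀ *ᵥ (u : Fin 3 → ℝ)) i := by
  rw [EuclideanSpace.inner_eq_star_dotProduct]
  simp [Matrix.toEuclideanLin, Matrix.toLpLin_apply, Matrix.mulVec, dotProduct, mul_comm]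

lemma N_lower (k : ℕ) : 2 ^ k ≤ N k := two_pow_le_ncard k

lemma N_upper (k : ℕ) : N k ≤ 7 ^ k := ncard_le_pow k

lemma N_pos (k : ℕ) : (0 : ℝ) < N k := by
  have h1 := N_lower k
  have h2 : 0 < 2 ^ k := by positivity
  exact_mod_cast lt_of_lt_of_le h2 h1

lemma ratio_aux (k c z : ℕ) (h : 2 * c = N k + z) (a : ℝ) (ha : a = 2 * π) :
    |(c : ℝ) / N k - a / (4 * π)| = z / (2 * N k) := by
  have hN := N_pos k
  have hpi := Real.pi_pos
  have h1 : (2 : ℝ) * c = N k + z := by exact_mod_cast h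
  have h2 : (c : ℝ) / N k - a / (4 * π) = z / (2 * N k) := by
    rw [ha]
    field_simp
    linarith
  rw [h2, abs_of_nonneg]
  positivity

lemma D_one (k : ℕ) (i : Fin 3) (x : E3) (hx : x i = 0) :
    D k x (EuclideanSpace.single i (1 : ℝ)) 0 =
      ((Zs k i (x : Fin 3 → ℝ)).ncard : ℝ) / (2 * N k) := by
  unfold D
  apply ratio_aux
  · simp only [inner_axis]
    exact count_nonneg k i _ hx
  · apply area_hemisphere
    intro h0
    have := congrArg (fun v : E3 => v i) h0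
    simp at this

lemma D_two (k : ℕ) (i : Fin 3) (u : E3) (hu0 : u ≠ 0) (hu : u i = 0) :
    D k (EuclideanSpace.single i (1 : ℝ)) u 0 =
      ((Zs k i (u : Fin 3 → ℝ)).ncard : ℝ) / (2 * N k) := by
  unfold D
  apply ratio_aux
  · simp only [inner_axis']
    rw [count_transpose k (fun g => 0 ≤ (g *ᵥ (u : Fin 3 → ℝ)) i)]
    exact count_nonneg k i _ hu
  · exact area_hemisphere u hu0

lemma k_le_log (k : ℕ) : (k : ℝ) * 0.6931 ≤ Real.log (N k) := by
  have h1 : (2 : ℝ) ^ k ≤ N k := by exact_mod_cast N_lower k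
  have h2 := Real.log_le_log (by positivity) h1
  rw [Real.log_pow] at h2
  have h3 := Real.log_two_gt_d9
  have h4 : (0 : ℝ) ≤ k := Nat.cast_nonneg k
  nlinarith

lemma log_le_k (k : ℕ) : Real.log (N k) ≤ 2 * k := by
  have h1 : (N k : ℝ) ≤ 7 ^ k := by exact_mod_cast N_upper k
  have h2 := Real.log_le_log (N_pos k) h1
  rw [Real.log_pow] at h2
  have h3 : Real.log 7 ≤ 2 := by
    rw [Real.log_le_iff_le_exp (by norm_num)]
    have h4 := Real.exp_one_gt_d9
    have h5 : Real.exp 2 = Real.exp 1 * Real.exp 1 := by rw [← Real.exp_add]; norm_num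
    rw [h5]
    nlinarith
  have h4 : (0 : ℝ) ≤ k := Nat.cast_nonneg k
  nlinarith

lemma upper_all (k z : ℕ) (hk : 1 ≤ k) (hz : z ≤ (8 * (4 * k + 1)) * (4 * (2 * k + 1))) :
    (z : ℝ) / (2 * N k) ≤ 500 * Real.log (N k) ^ 2 / N k := by
  have hN := N_pos k
  have h1 := k_le_log k
  have hk' : (1 : ℝ) ≤ k := by exact_mod_cast hk
  have hz' : (z : ℝ) ≤ (8 * (4 * k + 1)) * (4 * (2 * k + 1)) := by exact_mod_cast hz
  rw [div_le_div_iff₀ (by positivity) hN]
  have h2 : (z : ℝ) ≤ 480 * k ^ 2 := by nlinarith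
  have h3 : ((k : ℝ) * 0.6931) ^ 2 ≤ Real.log (N k) ^ 2 := by
    apply pow_le_pow_left₀ (by positivity) h1
  have h4 : (z : ℝ) ≤ 1000 * Real.log (N k) ^ 2 := by nlinarith
  nlinarith

lemma upper_irr (k z : ℕ) (hk : 1 ≤ k) (hz : z ≤ 8 * (2 * k + 1)) :
    (z : ℝ) / (2 * N k) ≤ 18 * Real.log (N k) / N k := by
  have hN := N_pos k
  have h1 := k_le_log k
  have hk' : (1 : ℝ) ≤ k := by exact_mod_cast hk
  have hz' : (z : ℝ) ≤ 8 * (2 * k + 1) := by exact_mod_cast hz
  rw [div_le_div_iff₀ (by positivity) hN]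
  have h4 : (z : ℝ) ≤ 36 * Real.log (N k) := by nlinarith
  nlinarith

lemma lower_all (k z : ℕ) (hz : k + 1 ≤ z) :
    Real.log (N k) / (4 * N k) ≤ (z : ℝ) / (2 * N k) := by
  have hN := N_pos k
  have h1 := log_le_k k
  have hz' : (k : ℝ) + 1 ≤ z := by exact_mod_cast hz
  rw [div_le_div_iff₀ (by positivity) (by positivity)]
  nlinarith

lemma irr_aux {a b : ℝ} (h : Irrational (a / b)) (p q : ℤ) (hpq : (p : ℝ) * a + q * b = 0) :
    p = 0 ∧ q = 0 := by
  have hb : b ≠ 0 := by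
    rintro rfl
    exact h ⟨0, by simp⟩
  have hp : p = 0 := by
    by_contra hp
    apply h
    refine ⟨-(q : ℚ) / p, ?_⟩
    have hp' : (p : ℝ) ≠ 0 := by exact_mod_cast hp
    push_cast
    rw [div_eq_div_iff hp' hb]
    linarith
  subst hp
  refine ⟨rfl, ?_⟩
  have : (q : ℝ) * b = 0 := by simpa using hpq
  exact_mod_cast (mul_eq_zero.1 this).resolve_right hb

lemma final (k : ℕ) (i : Fin 3) (y : Fin 3 → ℝ) (hy : y i = 0) (hy0 : y ≠ 0) (d : ℝ)
    (hd : d = ((Zs k i y).ncard : ℝ) / (2 * N k)) :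
    Real.log (N k) / (4 * N k) ≤ d ∧
      (1 ≤ k → d ≤ 500 * Real.log (N k) ^ 2 / N k) ∧
      (1 ≤ k → Irrational (y (i + 1) / y (i + 2)) → d ≤ 18 * Real.log (N k) / N k) := by
  subst hd
  refine ⟨?_, ?_, ?_⟩
  · apply lower_all
    exact (axis_lower k i).trans (Set.ncard_le_ncard (axis_subset_Zs hy)
      ((ball_finite k).subset fun _ h => h.1))
  · intro hk
    exact upper_all k _ hk (Zs_le k i y hy hy0)
  · intro hk hirr
    exact upper_irr k _ hk ((Set.ncard_le_ncard (Zs_irr hy fun p q h => irr_aux hirr p q h)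
      (axis_finite k i)).trans (axis_ncard k i))

/-- For the hemisphere `A` with pole `u`, if one of the unit vectors `x`, `u` is a coordinate axis
and the other is orthogonal to it, then `D_k(x, A)` lies between `log N_k / (4 N_k)` and
`500 (log N_k)² / N_k`; the upper bound improves to `18 log N_k / N_k` if the slope of the other
vector is irrational. -/
theorem result (i : Fin 3) (x u : E3) (hx : ‖x‖ = 1) (hu : ‖u‖ = 1)
    (h : (u = EuclideanSpace.single i 1 ∧ x i = 0) ∨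
      (x = EuclideanSpace.single i 1 ∧ u i = 0)) (k : ℕ) :
    Real.log (N k) / (4 * N k) ≤ D k x u 0 ∧
      (1 ≤ k → D k x u 0 ≤ 500 * Real.log (N k) ^ 2 / N k) ∧
      (1 ≤ k → (Irrational (x (i + 1) / x (i + 2)) ∨ Irrational (u (i + 1) / u (i + 2))) →
        D k x u 0 ≤ 18 * Real.log (N k) / N k) := by
  have n1 : i + 1 ≠ i := by fin_cases i <;> decide
  have hrat : ¬ Irrational
      ((EuclideanSpace.single i (1 : ℝ) : E3) (i + 1) /
        (EuclideanSpace.single i (1 : ℝ) : E3) (i + 2)) := by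
    intro hh
    apply hh
    refine ⟨0, ?_⟩
    simp [n1]
  rcases h with ⟨rfl, h0⟩ | ⟨rfl, h0⟩
  · have hx0 : x ≠ 0 := by rintro rfl; simp at hx
    have hy0 : (x : Fin 3 → ℝ) ≠ 0 := by
      intro h1
      apply hx0
      ext j
      exact congrFun h1 j
    obtain ⟨f1, f2, f3⟩ := final k i (x : Fin 3 → ℝ) h0 hy0 _ (D_one k i x h0)
    exact ⟨f1, f2, fun hk hor => f3 hk (hor.resolve_right hrat)⟩
  · have hu0 : u ≠ 0 := by rintro rfl; simp at hu
    have hy0 : (u : Fin 3 → ℝ) ≠ 0 := by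
      intro h1
      apply hu0
      ext j
      exact congrFun h1 j
    obtain ⟨f1, f2, f3⟩ := final k i (u : Fin 3 → ℝ) h0 hy0 _ (D_two k i u hu0 h0)
    exact ⟨f1, f2, fun hk hor => f3 hk (hor.resolve_left hrat)⟩

end Pool.Agent.Results.MP_a91a8d_an.Hemisphere
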